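import Pool.Agent.MP_f1fec5_al.Card

namespace Pool.Agent.Results.MP_f1fec5_al.CompleteSemilocal

open Pool.Agent.MP_f1fec5_al

universe u v

theorem result {ι : Type} [Finite ι] [Nonempty ι] (T : ι → Type u)
    [∀ i, CommRing (T i)] [∀ i, IsLocalRing (T i)] [∀ i, IsNoetherianRing (T i)]
    [∀ i, IsAdicComplete (IsLocalRing.maximalIdeal (T i)) (T i)]
    (h : IntCond T ∨ ∀ i, Essential (T i) →
      ∀ P ∈ associatedPrimes (T i) (T i), 2 ≤ ringKrullDim (T i ⧸ P)) :
    HasDomainModel.{u, max u v} (Π i, T i) ↔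
      IntCond T ∧
        ∀ i j, Essential (T i) → Essential (T j) → Cardinal.mk (T i) = Cardinal.mk (T j) :=
  complete_iff' T h

end Pool.Agent.Results.MP_f1fec5_al.CompleteSemilocal
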